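import Mathlib

/-!
# Definitions for MP_c1a8be_al (small Brooks quasimorphisms and their infinite sums)
-/

set_option autoImplicit false

open Filter Topology

namespace Pool.Agent.Helper10.Brooks

universe u

variable {S : Type u} [DecidableEq S]

/-- The reduced word of `w` occurs as a subword of the reduced word of `g`, starting at
position `i`. -/
def OccursAt (w g : FreeGroup S) (i : ℕ) : Prop :=
  w.toWord <+: g.toWord.drop i

/-- `I` is a finite set of (starting positions of) pairwise disjoint occurrences of `w` as a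
subword of `g`. -/
def DisjointOccurrences (w g : FreeGroup S) (I : Finset ℕ) : Prop :=
  (∀ i ∈ I, OccursAt w g i) ∧ ∀ i ∈ I, ∀ j ∈ I, i < j → i + w.toWord.length ≤ j

/-- The maximal number of pairwise disjoint occurrences of `w` (used for `w ≠ 1`) as a subword
of `g`. -/
noncomputable def maxDisjoint (w g : FreeGroup S) : ℕ :=
  sSup {n : ℕ | ∃ I : Finset ℕ, DisjointOccurrences w g I ∧ I.card = n}

/-- The small Brooks quasimorphism `h_w`: the maximal number of pairwise disjoint occurrences of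
`w` as a subword of `g`, minus the same number for `w⁻¹`. -/
noncomputable def brooks (w g : FreeGroup S) : ℝ :=
  (maxDisjoint w g : ℝ) - maxDisjoint w⁻¹ g

/-- The homogenization `g ↦ lim_{n → ∞} φ(g^n)/n`. (For `φ = h_w` with `w ∈ 𝒩` the limit is proved
to exist in `result`.) -/
noncomputable def homogenization (φ : FreeGroup S → ℝ) (g : FreeGroup S) : ℝ :=
  limUnder atTop (fun n : ℕ => φ (g ^ n) / n)

/-- `φ` is a quasimorphism: `sup_{g,h} |φ(g) + φ(h) - φ(gh)| < ∞`. -/
def IsQuasimorphism (φ : FreeGroup S → ℝ) : Prop :=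
  ∃ D : ℝ, ∀ g h : FreeGroup S, |φ g + φ h - φ (g * h)| ≤ D

/-- The set `𝒩` of non-self-overlapping words: `w ≠ 1` and no nonempty proper initial segment `p`
of the reduced word of `w` is also a final segment of it. -/
def nonSelfOverlapping (S : Type u) [DecidableEq S] : Set (FreeGroup S) :=
  {w | w ≠ 1 ∧ ∀ p : List (S × Bool), p ≠ [] → p ≠ w.toWord → p <+: w.toWord → ¬ p <:+ w.toWord}

/-- `P` is a possible choice of `𝒩⁺`: a subset of `𝒩` containing exactly one of `w, w⁻¹` for each
`w ∈ 𝒩`. -/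
def IsPositiveHalf (P : Set (FreeGroup S)) : Prop :=
  P ⊆ nonSelfOverlapping S ∧ ∀ w ∈ nonSelfOverlapping S, (w ∈ P ∧ w⁻¹ ∉ P) ∨ (w ∉ P ∧ w⁻¹ ∈ P)

/-- The sum `φ_α(g) = ∑_{w ∈ 𝒩⁺} α_w h_w(g)` (with `P = 𝒩⁺`; a finite sum for each `g`). -/
noncomputable def phi (P : Set (FreeGroup S)) (α : FreeGroup S → ℝ) (g : FreeGroup S) : ℝ :=
  ∑ᶠ w ∈ P, α w * brooks w g

/-- The sum `φ̃_α(g) = ∑_{w ∈ 𝒩⁺} α_w \bar h_w(g)` (with `P = 𝒩⁺`; a finite sum for each `g`),
where `\bar h_w` is the homogenization of `h_w`. -/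
noncomputable def phiTilde (P : Set (FreeGroup S)) (α : FreeGroup S → ℝ) (g : FreeGroup S) : ℝ :=
  ∑ᶠ w ∈ P, α w * homogenization (brooks w) g

end Pool.Agent.Helper10.Brooks
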