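import Pool.Agent.Helper10.BrooksDefs

/-!
# Proofs for MP_c1a8be_al
-/

set_option autoImplicit false

open Filter Topology

namespace Pool.Agent.Helper10.Brooks

universe u

section ListCount

variable {α : Type u} [DecidableEq α]

/-- number of occurrences of `w` in `l` (auxiliary, recursion on `l`). -/
def cnt (w : List α) : List α → ℕ
  | [] => 0
  | (x :: l) => (if w <+: (x :: l) then 1 else 0) + cnt w l

theorem cnt_le_length (w l : List α) : cnt w l ≤ l.length := by
  induction l with
  | nil => simp [cnt]
  | cons x l ih =>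
    simp only [cnt, List.length_cons]
    split_ifs <;> omega

theorem sum_right_prefix [Fintype α] (v l : List α) :
    (∑ t : α, (if v ++ [t] <+: l then 1 else 0 : ℕ)) + (if v = l then 1 else 0)
      = if v <+: l then 1 else 0 := by
  by_cases h : v <+: l
  · obtain ⟨s, rfl⟩ := h
    cases s with
    | nil =>
      have : ∀ t : α, ¬ (v ++ [t] <+: v ++ []) := by
        intro t ht
        have := ht.length_le
        simp at this
      simp only [this, if_false, Finset.sum_const_zero]
      simp
    | cons y s =>
      have h1 : ∀ t : α, (v ++ [t] <+: v ++ y :: s) ↔ t = y := by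
        intro t
        rw [List.prefix_append_right_inj]
        simp
      have h2 : ¬ (v = v ++ y :: s) := by
        intro hh
        have := congrArg List.length hh
        simp at this
      simp [h1]
  · have h1 : ∀ t : α, ¬ (v ++ [t] <+: l) := by
      intro t ht
      exact h ((List.prefix_append v [t]).trans ht)
    have h2 : v ≠ l := by
      rintro rfl
      exact h (List.prefix_refl _)
    simp [h1, h, h2]

/-- Right extension identity. -/
theorem cnt_right_ext [Fintype α] (v : List α) (hv : v ≠ []) (l : List α) :
    (∑ t : α, cnt (v ++ [t]) l) + (if v <:+ l then 1 else 0) = cnt v l := by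
  induction l with
  | nil => simp [cnt, hv]
  | cons x l ih =>
    simp only [cnt, Finset.sum_add_distrib]
    have key := sum_right_prefix v (x :: l)
    have hs : (if v <:+ x :: l then 1 else 0 : ℕ)
        = (if v = x :: l then 1 else 0) + (if v <:+ l then 1 else 0) := by
      by_cases h1 : v = x :: l
      · have h2 : ¬ v <:+ l := by
          intro h
          have := h.length_le
          rw [h1] at this
          simp at this
        subst h1
        simp [h2]
      · by_cases h2 : v <:+ l
        · have : v <:+ x :: l := List.suffix_cons_iff.2 (Or.inr h2)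
          simp [h1, h2, this]
        · have : ¬ v <:+ x :: l := by
            rw [List.suffix_cons_iff]
            tauto
          simp [h1, h2, this]
    rw [hs]
    omega

/-- Left extension identity. -/
theorem cnt_left_ext [Fintype α] (v : List α) (hv : v ≠ []) (l : List α) :
    (∑ t : α, cnt (t :: v) l) + (if v <+: l then 1 else 0) = cnt v l := by
  induction l with
  | nil => simp [cnt, hv]
  | cons x l ih =>
    simp only [cnt, Finset.sum_add_distrib]
    have key : (∑ t : α, (if t :: v <+: x :: l then 1 else 0 : ℕ)) = if v <+: l then 1 else 0 := by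
      simp only [List.cons_prefix_cons]
      by_cases h : v <+: l <;> simp [h]
    rw [key]
    omega

theorem cnt_append_le (w x y : List α) :
    cnt w x + cnt w y ≤ cnt w (x ++ y) ∧
      cnt w (x ++ y) ≤ cnt w x + cnt w y + min x.length w.length := by
  induction x with
  | nil => simp [cnt]
  | cons a x ih =>
    simp only [List.cons_append, cnt, List.length_cons]
    by_cases h : w <+: a :: x
    · have h' : w <+: a :: (x ++ y) := h.trans (List.prefix_append (a :: x) y)
      simp only [h, h', if_true]
      omega
    · by_cases h' : w <+: a :: (x ++ y)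
      · simp only [h, h', if_true, if_false]
        have hlen : x.length + 1 < w.length := by
          by_contra hcon
          apply h
          exact List.prefix_of_prefix_length_le h' (List.prefix_append (a :: x) y)
            (by simpa using hcon)
        omega
      · simp only [h, h', if_false]
        omega

/-- limit of the counting function along `flatten (replicate n r)`. -/
theorem exists_lim_flatten (w r : List α) :
    ∃ c : ℝ, Tendsto (fun n : ℕ => (cnt w (List.replicate n r).flatten : ℝ) / n) atTop (𝓝 c) := by
  set f : ℕ → ℕ := fun n => cnt w (List.replicate n r).flatten with hf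
  have hadd : ∀ m n, f m + f n ≤ f (m + n) := by
    intro m n
    have := (cnt_append_le w (List.replicate m r).flatten (List.replicate n r).flatten).1
    rw [← List.flatten_append, ← List.replicate_add] at this
    exact this
  have hsub : Subadditive (fun n => -(f n : ℝ)) := by
    intro m n
    have : ((f m + f n : ℕ) : ℝ) ≤ (f (m + n) : ℝ) := by exact_mod_cast hadd m n
    push_cast at this
    linarith
  have hbdd : BddBelow (Set.range fun n : ℕ => (-(f n : ℝ)) / n) := by
    refine ⟨-(r.length : ℝ), ?_⟩
    rintro _ ⟨n, rfl⟩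
    rcases Nat.eq_zero_or_pos n with rfl | hn
    · simp
    · have hn' : (0 : ℝ) < n := by exact_mod_cast hn
      have h1 : f n ≤ n * r.length := by
        have := cnt_le_length w (List.replicate n r).flatten
        simpa [hf] using this
      have h2 : (f n : ℝ) ≤ n * r.length := by exact_mod_cast h1
      simp only
      rw [le_div_iff₀ hn']
      linarith
  refine ⟨-hsub.lim, ?_⟩
  have := (hsub.tendsto_lim hbdd).neg
  refine this.congr ?_
  intro n
  simp [hf, neg_div]

/-- limit of the counting function along `c ++ flatten (replicate n r) ++ c'`. -/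
theorem exists_lim_conj (w c r c' : List α) :
    ∃ a : ℝ, Tendsto
      (fun n : ℕ => (cnt w (c ++ (List.replicate n r).flatten ++ c') : ℝ) / n) atTop (𝓝 a) := by
  obtain ⟨a, ha⟩ := exists_lim_flatten w r
  refine ⟨a, ?_⟩
  set K : ℕ := c.length + c'.length + 2 * w.length with hK
  have hb : ∀ n : ℕ, |(cnt w (c ++ (List.replicate n r).flatten ++ c') : ℝ)
      - cnt w (List.replicate n r).flatten| ≤ K := by
    intro n
    have h1 := cnt_append_le w (c ++ (List.replicate n r).flatten) c'
    have h2 := cnt_append_le w c (List.replicate n r).flatten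
    have h3 := cnt_le_length w c
    have h4 := cnt_le_length w c'
    have h5 : min c.length w.length ≤ w.length := min_le_right _ _
    have h6 : min (c ++ (List.replicate n r).flatten).length w.length ≤ w.length :=
      min_le_right _ _
    have h7 : cnt w (List.replicate n r).flatten ≤ cnt w (c ++ (List.replicate n r).flatten ++ c')
      := by omega
    have h8 : cnt w (c ++ (List.replicate n r).flatten ++ c')
      ≤ cnt w (List.replicate n r).flatten + K := by omega
    rw [abs_le]
    constructor
    · have : (cnt w (List.replicate n r).flatten : ℝ)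
        ≤ cnt w (c ++ (List.replicate n r).flatten ++ c') := by exact_mod_cast h7
      have hK0 : (0 : ℝ) ≤ K := by positivity
      linarith
    · have : (cnt w (c ++ (List.replicate n r).flatten ++ c') : ℝ)
        ≤ cnt w (List.replicate n r).flatten + K := by exact_mod_cast h8
      linarith
  have hz : Tendsto (fun n : ℕ => ((cnt w (c ++ (List.replicate n r).flatten ++ c') : ℝ)
      - cnt w (List.replicate n r).flatten) / n) atTop (𝓝 0) := by
    apply squeeze_zero_norm (a := fun n : ℕ => (K : ℝ) / n)
    · intro n
      rw [norm_div, Real.norm_eq_abs]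
      simp only [RCLike.norm_natCast]
      exact div_le_div_of_nonneg_right (hb n) (by positivity)
    · exact tendsto_const_div_atTop_nhds_zero_nat _
  have := ha.add hz
  simp only [add_zero] at this
  refine this.congr ?_
  intro n
  rw [← add_div]
  congr 1
  ring

/-- A word without borders which is longer than `r` does not occur in `r r ... r`. -/
theorem cnt_flatten_eq_zero (w r : List α)
    (hw : ∀ p : List α, p ≠ [] → p ≠ w → p <+: w → ¬ p <:+ w) (hlen : r.length < w.length)
    (n : ℕ) : cnt w (List.replicate n r).flatten = 0 := by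
  rcases List.eq_nil_or_concat r with hr | hr
  · subst hr
    simp [cnt]
  have hr : r ≠ [] := by
    obtain ⟨_, _, h⟩ := hr
    rw [h]; simp
  have hrpos : 0 < r.length := List.length_pos_iff.2 hr
  set z := (List.replicate n r).flatten with hz
  have hper : z.drop r.length <+: z := by
    rcases n with _ | n
    · simp [hz]
    · have h1 : z.drop r.length = (List.replicate n r).flatten := by
        rw [hz, List.replicate_succ, List.flatten_cons, List.drop_left]
      rw [h1, hz, List.replicate_succ']
      simp
  have key : ∀ i, ¬ (w <+: z.drop i) := by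
    intro i hi
    have h1 : w.drop r.length <+: z.drop i := by
      have h2 : w.drop r.length <+: (z.drop i).drop r.length := hi.drop _
      have h3 : (z.drop i).drop r.length <+: z.drop i := by
        have := hper.drop i
        rw [List.drop_drop] at this ⊢
        rwa [add_comm] at this
      exact h2.trans h3
    have h2 : w.take (w.length - r.length) <+: z.drop i := (List.take_prefix _ _).trans hi
    have h3 : w.drop r.length = w.take (w.length - r.length) := by
      have ha := List.prefix_of_prefix_length_le h1 h2 (by simp)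
      exact ha.eq_of_length (by simp)
    refine hw (w.drop r.length) ?_ ?_ ?_ (List.drop_suffix _ _)
    · intro h
      have := congrArg List.length h
      simp at this
      omega
    · intro h
      have := congrArg List.length h
      simp at this
      omega
    · rw [h3]; exact List.take_prefix _ _
  have hall : ∀ i, cnt w (z.drop i) = 0 := by
    intro i
    induction hk : (z.drop i).length generalizing i with
    | zero =>
      have : z.drop i = [] := List.length_eq_zero_iff.1 hk
      rw [this]; rfl
    | succ k ih =>
      obtain ⟨x, l, hxl⟩ : ∃ x l, z.drop i = x :: l := by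
        cases h : z.drop i with
        | nil => rw [h] at hk; simp at hk
        | cons x l => exact ⟨x, l, rfl⟩
      have h1 : z.drop (i + 1) = l := by
        rw [← List.drop_drop, hxl]; rfl
      have h2 := ih (i + 1) (by rw [h1]; rw [hxl] at hk; simpa using hk)
      rw [h1] at h2
      have h3 := key i
      rw [hxl] at h3 ⊢
      simp [cnt, h3, h2]
  simpa using hall 0

end ListCount


variable {S : Type u} [DecidableEq S]

/-! ### `maxDisjoint = cnt` on `𝒩` -/

theorem cnt_eq_card (w l : List (S × Bool)) :
    cnt w l = ((Finset.range l.length).filter (fun i => w <+: l.drop i)).card := by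
  induction l with
  | nil => simp [cnt]
  | cons x l ih =>
    rw [cnt, ih, List.length_cons, Finset.card_filter, Finset.card_filter,
      Finset.sum_range_succ']
    simp only [List.drop_succ_cons, List.drop_zero]
    omega

theorem toWord_ne_nil {w : FreeGroup S} (hw : w ≠ 1) : w.toWord ≠ [] := by
  intro h
  exact hw (FreeGroup.toWord_eq_nil_iff.1 h)

theorem occursAt_lt {w g : FreeGroup S} (hw : w ≠ 1) {i : ℕ} (h : OccursAt w g i) :
    i < g.toWord.length := by
  by_contra hcon
  have h1 : g.toWord.drop i = [] := List.drop_eq_nil_of_le (by omega)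
  unfold OccursAt at h
  rw [h1] at h
  exact toWord_ne_nil hw (List.prefix_nil.1 h)

theorem maxDisjoint_eq_cnt {w : FreeGroup S} (hw : w ∈ nonSelfOverlapping S) (g : FreeGroup S) :
    maxDisjoint w g = cnt w.toWord g.toWord := by
  obtain ⟨hw1, hw2⟩ := hw
  rw [cnt_eq_card]
  set I₀ := (Finset.range g.toWord.length).filter (fun i => w.toWord <+: g.toWord.drop i) with hI₀
  have hdisj : DisjointOccurrences w g I₀ := by
    constructor
    · intro i hi
      exact (Finset.mem_filter.1 hi).2
    · intro i hi j hj hij
      by_contra hcon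
      have hi' : w.toWord <+: g.toWord.drop i := (Finset.mem_filter.1 hi).2
      have hj' : w.toWord <+: g.toWord.drop j := (Finset.mem_filter.1 hj).2
      have h1 : w.toWord.drop (j - i) <+: g.toWord.drop j := by
        have := hi'.drop (j - i)
        rw [List.drop_drop] at this
        have hji : i + (j - i) = j := by omega
        rwa [hji] at this
      have h2 : w.toWord.take (w.toWord.length - (j - i)) <+: g.toWord.drop j :=
        (List.take_prefix _ _).trans hj'
      have h3 : w.toWord.drop (j - i) = w.toWord.take (w.toWord.length - (j - i)) := by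
        have ha := List.prefix_of_prefix_length_le h1 h2 (by simp)
        exact ha.eq_of_length (by simp)
      refine hw2 (w.toWord.drop (j - i)) ?_ ?_ ?_ (List.drop_suffix _ _)
      · intro h
        have := congrArg List.length h
        simp at this
        omega
      · intro h
        have := congrArg List.length h
        simp at this
        omega
      · rw [h3]; exact List.take_prefix _ _
  apply le_antisymm
  · apply csSup_le
    · exact ⟨I₀.card, I₀, hdisj, rfl⟩
    · rintro n ⟨I, hI, rfl⟩
      apply Finset.card_le_card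
      intro i hi
      have := hI.1 i hi
      exact Finset.mem_filter.2 ⟨Finset.mem_range.2 (occursAt_lt hw1 this), this⟩
  · apply le_csSup
    · refine ⟨g.toWord.length, ?_⟩
      rintro n ⟨I, hI, rfl⟩
      calc I.card ≤ (Finset.range g.toWord.length).card := by
            apply Finset.card_le_card
            intro i hi
            exact Finset.mem_range.2 (occursAt_lt hw1 (hI.1 i hi))
        _ = _ := by simp
    · exact ⟨I₀, hdisj, rfl⟩

/-! ### `𝒩` is closed under inversion -/

omit [DecidableEq S] in
theorem prefix_invRev {p w : List (S × Bool)} (h : p <+: FreeGroup.invRev w) :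
    FreeGroup.invRev p <:+ w := by
  obtain ⟨s, hs⟩ := h
  refine ⟨FreeGroup.invRev s, ?_⟩
  rw [← FreeGroup.invRev_append, hs, FreeGroup.invRev_invRev]

omit [DecidableEq S] in
theorem suffix_invRev {p w : List (S × Bool)} (h : p <:+ FreeGroup.invRev w) :
    FreeGroup.invRev p <+: w := by
  obtain ⟨s, hs⟩ := h
  refine ⟨FreeGroup.invRev s, ?_⟩
  rw [← FreeGroup.invRev_append, hs, FreeGroup.invRev_invRev]

theorem inv_mem_nso {w : FreeGroup S} (hw : w ∈ nonSelfOverlapping S) :
    w⁻¹ ∈ nonSelfOverlapping S := by
  obtain ⟨hw1, hw2⟩ := hw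
  refine ⟨inv_ne_one.2 hw1, ?_⟩
  intro p hp hpw hpre hsuf
  rw [FreeGroup.toWord_inv] at hpw hpre hsuf
  refine hw2 (FreeGroup.invRev p) ?_ ?_ (suffix_invRev hsuf) (prefix_invRev hpre)
  · intro h
    have := congrArg List.length h
    simp at this
    exact hp this
  · intro h
    apply hpw
    rw [← h, FreeGroup.invRev_invRev]

/-! ### limits -/

theorem exists_lim_cnt (w g : FreeGroup S) :
    ∃ c : ℝ, Tendsto (fun n : ℕ => (cnt w.toWord (g ^ n).toWord : ℝ) / n) atTop (𝓝 c) := by
  obtain ⟨a, ha⟩ := exists_lim_conj w.toWord
    (FreeGroup.reduceCyclically.conjugator g.toWord) (FreeGroup.reduceCyclically g.toWord)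
    (FreeGroup.invRev (FreeGroup.reduceCyclically.conjugator g.toWord))
  refine ⟨a, ha.congr' ?_⟩
  filter_upwards [eventually_ne_atTop 0] with n hn
  rw [FreeGroup.toWord_pow,
    FreeGroup.reduceCyclically.reduce_flatten_replicate FreeGroup.isReduced_toWord, if_neg hn]

theorem length_reduceCyclically_le (l : List (S × Bool)) :
    (FreeGroup.reduceCyclically l).length ≤ l.length := by
  have := congrArg List.length (FreeGroup.reduceCyclically.conj_conjugator_reduceCyclically l)
  simp at this
  omega

theorem lim_cnt_eq_zero {w : FreeGroup S} (hw : w ∈ nonSelfOverlapping S) {g : FreeGroup S}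
    (hlen : g.toWord.length < w.toWord.length) :
    Tendsto (fun n : ℕ => (cnt w.toWord (g ^ n).toWord : ℝ) / n) atTop (𝓝 0) := by
  set c := FreeGroup.reduceCyclically.conjugator g.toWord with hc
  set r := FreeGroup.reduceCyclically g.toWord with hr
  have hrw : r.length < w.toWord.length := lt_of_le_of_lt (length_reduceCyclically_le _) hlen
  set K : ℕ := c.length + c.length + 2 * w.toWord.length with hK
  apply squeeze_zero_norm' (a := fun n : ℕ => (K : ℝ) / n)
  · filter_upwards [eventually_ne_atTop 0] with n hn
    rw [FreeGroup.toWord_pow,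
      FreeGroup.reduceCyclically.reduce_flatten_replicate FreeGroup.isReduced_toWord, if_neg hn,
      norm_div]
    simp only [RCLike.norm_natCast]
    apply div_le_div_of_nonneg_right _ (by positivity)
    have h0 := cnt_flatten_eq_zero w.toWord r hw.2 hrw n
    have h1 := cnt_append_le w.toWord (c ++ (List.replicate n r).flatten) (FreeGroup.invRev c)
    have h2 := cnt_append_le w.toWord c (List.replicate n r).flatten
    have h3 := cnt_le_length w.toWord c
    have h4 := cnt_le_length w.toWord (FreeGroup.invRev c)
    rw [FreeGroup.invRev_length] at h4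
    have h5 : min c.length w.toWord.length ≤ w.toWord.length := min_le_right _ _
    have h6 : min (c ++ (List.replicate n r).flatten).length w.toWord.length ≤ w.toWord.length :=
      min_le_right _ _
    have h8 : cnt w.toWord (c ++ (List.replicate n r).flatten ++ FreeGroup.invRev c) ≤ K := by
      omega
    exact_mod_cast h8
  · exact tendsto_const_div_atTop_nhds_zero_nat _

/-- The limit defining the homogenization of `h_w`, `w ∈ 𝒩`, exists. -/
theorem tendsto_homogenization {w : FreeGroup S} (hw : w ∈ nonSelfOverlapping S)
    (g : FreeGroup S) :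
    Tendsto (fun n : ℕ => brooks w (g ^ n) / n) atTop (𝓝 (homogenization (brooks w) g)) := by
  obtain ⟨a, ha⟩ := exists_lim_cnt w g
  obtain ⟨b, hb⟩ := exists_lim_cnt w⁻¹ g
  have h : Tendsto (fun n : ℕ => brooks w (g ^ n) / n) atTop (𝓝 (a - b)) := by
    refine (ha.sub hb).congr ?_
    intro n
    rw [brooks, maxDisjoint_eq_cnt hw, maxDisjoint_eq_cnt (inv_mem_nso hw), sub_div]
  exact tendsto_nhds_limUnder ⟨a - b, h⟩

theorem homogenization_eq_zero {w : FreeGroup S} (hw : w ∈ nonSelfOverlapping S)
    {g : FreeGroup S} (hlen : g.toWord.length < w.toWord.length) :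
    homogenization (brooks w) g = 0 := by
  have h1 := tendsto_homogenization hw g
  have hlen' : g.toWord.length < (w⁻¹).toWord.length := by
    rw [FreeGroup.toWord_inv, FreeGroup.invRev_length]; exact hlen
  have h2 := (lim_cnt_eq_zero hw hlen).sub (lim_cnt_eq_zero (inv_mem_nso hw) hlen')
  simp only [sub_zero] at h2
  refine tendsto_nhds_unique h1 (h2.congr ?_)
  intro n
  rw [brooks, maxDisjoint_eq_cnt hw, maxDisjoint_eq_cnt (inv_mem_nso hw), sub_div]

theorem cnt_eq_zero_of_length_lt {w l : List (S × Bool)} (h : l.length < w.length) :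
    cnt w l = 0 := by
  induction l with
  | nil => rfl
  | cons x l ih =>
    have h1 : ¬ w <+: x :: l := by
      intro hh
      have := hh.length_le
      omega
    have h2 := ih (by simp at h; omega)
    simp [cnt, h1, h2]

theorem brooks_eq_zero {w : FreeGroup S} (hw : w ∈ nonSelfOverlapping S)
    {g : FreeGroup S} (hlen : g.toWord.length < w.toWord.length) : brooks w g = 0 := by
  have hlen' : g.toWord.length < (w⁻¹).toWord.length := by
    rw [FreeGroup.toWord_inv, FreeGroup.invRev_length]; exact hlen
  rw [brooks, maxDisjoint_eq_cnt hw, maxDisjoint_eq_cnt (inv_mem_nso hw),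
    cnt_eq_zero_of_length_lt hlen, cnt_eq_zero_of_length_lt hlen']
  simp

theorem brooks_inv (w g : FreeGroup S) : brooks w⁻¹ g = - brooks w g := by
  simp [brooks]

theorem homogenization_inv {w : FreeGroup S} (hw : w ∈ nonSelfOverlapping S) (g : FreeGroup S) :
    homogenization (brooks w⁻¹) g = - homogenization (brooks w) g := by
  have h1 := tendsto_homogenization (inv_mem_nso hw) g
  have h2 := (tendsto_homogenization hw g).neg
  refine tendsto_nhds_unique h1 (h2.congr ?_)
  intro n
  rw [brooks_inv, neg_div]

theorem finite_length_le [Finite S] (n : ℕ) : {w : FreeGroup S | w.toWord.length ≤ n}.Finite := by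
  have h : {l : List (S × Bool) | l.length ≤ n}.Finite := List.finite_length_le _ n
  exact Set.Finite.preimage (FreeGroup.toWord_injective.injOn) h

/-! ### The words `v_k = a (b a⁻¹)^k` -/

section Words

variable (a b : S)

/-- `(b a⁻¹)^k` -/
def tailWord (k : ℕ) : List (S × Bool) := (List.replicate k [(b, true), (a, false)]).flatten

/-- `v_k = a (b a⁻¹)^k` -/
def vWord (k : ℕ) : List (S × Bool) := (a, true) :: tailWord a b k

omit [DecidableEq S] in
theorem tailWord_succ (k : ℕ) :
    tailWord a b (k + 1) = (b, true) :: (a, false) :: tailWord a b k := by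
  simp [tailWord, List.replicate_succ]

omit [DecidableEq S] in
theorem tailWord_succ' (k : ℕ) :
    tailWord a b (k + 1) = tailWord a b k ++ [(b, true), (a, false)] := by
  simp [tailWord, List.replicate_succ']

omit [DecidableEq S] in
theorem vWord_succ' (k : ℕ) :
    vWord a b (k + 1) = vWord a b k ++ [(b, true), (a, false)] := by
  simp [vWord, tailWord_succ']

omit [DecidableEq S] in
theorem length_vWord (k : ℕ) : (vWord a b k).length = 2 * k + 1 := by
  simp [vWord, tailWord, mul_comm]

omit [DecidableEq S] in
theorem mem_tailWord {k : ℕ} {x : S × Bool} (h : x ∈ tailWord a b k) :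
    x = (b, true) ∨ x = (a, false) := by
  simp only [tailWord, List.mem_flatten, List.mem_replicate] at h
  obtain ⟨l, ⟨_, rfl⟩, hx⟩ := h
  simpa using hx

omit [DecidableEq S] in
theorem invRev_tailWord (k : ℕ) :
    FreeGroup.invRev (tailWord a b k) = (List.replicate k [(a, true), (b, false)]).flatten := by
  induction k with
  | zero => simp [tailWord]
  | succ k ih =>
    rw [tailWord_succ', FreeGroup.invRev_append, ih, List.replicate_succ, List.flatten_cons]
    simp [FreeGroup.invRev]

omit [DecidableEq S] in
theorem invRev_vWord_succ (k : ℕ) : ∃ l, FreeGroup.invRev (vWord a b (k + 1))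
    = (a, true) :: (b, false) :: l := by
  refine ⟨(List.replicate k [(a, true), (b, false)]).flatten ++ [(a, false)], ?_⟩
  have : vWord a b (k + 1) = [(a, true)] ++ tailWord a b (k + 1) := rfl
  rw [this, FreeGroup.invRev_append, invRev_tailWord, List.replicate_succ]
  simp [FreeGroup.invRev]

omit [DecidableEq S] in
theorem isReduced_tailWord (hab : a ≠ b) (k : ℕ) : FreeGroup.IsReduced (tailWord a b k) := by
  have h : FreeGroup.IsCyclicallyReduced [(b, true), (a, false)] := by
    rw [FreeGroup.isCyclicallyReduced_iff]
    constructor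
    · simp [FreeGroup.IsReduced, hab.symm]
    · simp [hab]
  exact (h.flatten_replicate k).isReduced

omit [DecidableEq S] in
theorem isReduced_vWord (hab : a ≠ b) (k : ℕ) : FreeGroup.IsReduced (vWord a b k) := by
  have h := isReduced_tailWord a b hab k
  cases k with
  | zero => simp [vWord, tailWord]
  | succ k =>
    rw [vWord]
    rw [tailWord_succ] at h ⊢
    rw [FreeGroup.isReduced_cons_cons]
    exact ⟨by simp [hab], h⟩

omit [DecidableEq S] in
theorem isReduced_right_iff (hab : a ≠ b) (k : ℕ) {t : S × Bool} :
    FreeGroup.IsReduced (vWord a b (k + 1) ++ [t]) ↔ t ≠ (a, true) := by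
  have h := isReduced_vWord a b hab (k + 1)
  have e : vWord a b (k + 1) = (vWord a b k ++ [(b, true)]) ++ [(a, false)] := by
    rw [vWord_succ']; simp
  constructor
  · intro h1 h2
    subst h2
    rw [e] at h1
    rw [List.append_assoc] at h1
    have h3 : FreeGroup.IsReduced ([(a, false)] ++ [(a, true)]) :=
      List.IsChain.right_of_append h1
    simp [FreeGroup.IsReduced] at h3
  · intro ht
    rw [e] at h ⊢
    refine FreeGroup.IsReduced.append_overlap h ?_ (by simp)
    obtain ⟨t1, t2⟩ := t
    simp only [List.singleton_append, FreeGroup.isReduced_cons_cons, FreeGroup.IsReduced.singleton,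
      and_true]
    rintro rfl
    by_contra hne
    apply ht
    cases t2 <;> simp_all

omit [DecidableEq S] in
theorem isReduced_left_iff (hab : a ≠ b) (k : ℕ) {t : S × Bool} :
    FreeGroup.IsReduced (t :: vWord a b (k + 1)) ↔ t ≠ (a, false) := by
  have h := isReduced_vWord a b hab (k + 1)
  rw [vWord] at h ⊢
  rw [FreeGroup.isReduced_cons_cons]
  constructor
  · rintro ⟨h1, _⟩ rfl
    simp at h1
  · intro ht
    refine ⟨?_, h⟩
    obtain ⟨t1, t2⟩ := t
    rintro hh
    simp only at hh
    subst hh
    by_contra hne
    apply ht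
    cases t2 <;> simp_all

/-- `v_k t` as an element of the free group -/
def rightExt (k : ℕ) (t : S × Bool) : FreeGroup S := FreeGroup.mk (vWord a b (k + 1) ++ [t])

/-- `t v_k` as an element of the free group -/
def leftExt (k : ℕ) (t : S × Bool) : FreeGroup S := FreeGroup.mk (t :: vWord a b (k + 1))

variable {a b}

theorem toWord_rightExt (hab : a ≠ b) (k : ℕ) {t : S × Bool} (ht : t ≠ (a, true)) :
    (rightExt a b k t).toWord = vWord a b (k + 1) ++ [t] := by
  rw [rightExt, FreeGroup.toWord_mk, FreeGroup.IsReduced.reduce_eq]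
  exact (isReduced_right_iff a b hab k).2 ht

theorem toWord_leftExt (hab : a ≠ b) (k : ℕ) {t : S × Bool} (ht : t ≠ (a, false)) :
    (leftExt a b k t).toWord = t :: vWord a b (k + 1) := by
  rw [leftExt, FreeGroup.toWord_mk, FreeGroup.IsReduced.reduce_eq]
  exact (isReduced_left_iff a b hab k).2 ht

/-- The set `E₊` of the words `v_k t`. -/
def Eplus (a b : S) : Set (FreeGroup S) :=
  {w | ∃ (k : ℕ) (t : S × Bool), w.toWord = vWord a b (k + 1) ++ [t]}

/-- The set `E₋` of the words `t v_k`. -/
def Eminus (a b : S) : Set (FreeGroup S) :=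
  {w | ∃ (k : ℕ) (t : S × Bool), w.toWord = t :: vWord a b (k + 1)}

theorem Eplus_subset (hab : a ≠ b) : Eplus a b ⊆ nonSelfOverlapping S := by
  rintro w ⟨k, t, hw⟩
  have ht : t ≠ (a, true) := by
    rw [← isReduced_right_iff a b hab k, ← hw]
    exact FreeGroup.isReduced_toWord
  refine ⟨?_, ?_⟩
  · rintro rfl
    simp at hw
  · intro p hp hpw hpre hsuf
    rw [hw] at hpw hpre hsuf
    rw [vWord, List.cons_append] at hpw hpre hsuf
    rcases p with _ | ⟨x, p⟩
    · exact hp rfl
    rw [List.cons_prefix_cons] at hpre
    obtain ⟨rfl, hpre⟩ := hpre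
    rw [List.suffix_cons_iff] at hsuf
    rcases hsuf with h | h
    · exact hpw h
    · have hmem : (a, true) ∈ tailWord a b (k + 1) ++ [t] := h.subset (by simp)
      rw [List.mem_append] at hmem
      rcases hmem with h1 | h1
      · rcases mem_tailWord a b h1 with h2 | h2
        · simp at h2; exact hab h2
        · simp at h2
      · simp at h1
        exact ht h1.symm

theorem Eminus_subset (hab : a ≠ b) : Eminus a b ⊆ nonSelfOverlapping S := by
  rintro w ⟨k, t, hw⟩
  have ht : t ≠ (a, false) := by
    rw [← isReduced_left_iff a b hab k, ← hw]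
    exact FreeGroup.isReduced_toWord
  have hA : (a, true) ∉ tailWord a b (k + 1) := by
    intro h
    rcases mem_tailWord a b h with h2 | h2
    · simp at h2; exact hab h2
    · simp at h2
  refine ⟨?_, ?_⟩
  · rintro rfl
    simp at hw
  · intro p hp hpw hpre hsuf
    rw [hw] at hpw hpre hsuf
    rcases p with _ | ⟨x, p⟩
    · exact hp rfl
    rw [List.cons_prefix_cons] at hpre
    obtain ⟨rfl, hpre⟩ := hpre
    rw [List.suffix_cons_iff] at hsuf
    rcases hsuf with h | h
    · exact hpw h
    · rcases p with _ | ⟨y, p⟩
      · -- `[t]` is a suffix of `v_k`, whose last letter is `a⁻¹`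
        obtain ⟨s, hs⟩ := h
        rw [vWord_succ'] at hs
        have := congrArg List.getLast? hs
        simp at this
        exact ht this
      · rw [vWord, List.cons_prefix_cons] at hpre
        obtain ⟨rfl, hpre⟩ := hpre
        rw [vWord, List.suffix_cons_iff] at h
        rcases h with h | h
        · have h1 : tailWord a b (k + 1) = (a, true) :: p := by
            simpa using (List.cons.inj h).2.symm
          exact hA (by rw [h1]; simp)
        · exact hA (h.subset (by simp))

theorem Eplus_get {w : FreeGroup S} (h : w ∈ Eplus a b) : w.toWord[1]? = some (b, true) := by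
  obtain ⟨k, t, hw⟩ := h
  rw [hw, vWord, tailWord_succ]
  simp

theorem Eminus_get {w : FreeGroup S} (h : w ∈ Eminus a b) :
    w.toWord[1]? = some (a, true) ∧ w.toWord[2]? = some (b, true) := by
  obtain ⟨k, t, hw⟩ := h
  rw [hw, vWord, tailWord_succ]
  simp

theorem Eplus_inv_get {w : FreeGroup S} (h : w⁻¹ ∈ Eplus a b) :
    w.toWord[1]? = some (a, true) ∧ w.toWord[2]? = some (b, false) := by
  obtain ⟨k, t, hw⟩ := h
  have h1 : w.toWord = FreeGroup.invRev (vWord a b (k + 1) ++ [t]) := by
    rw [← hw, ← FreeGroup.toWord_inv, inv_inv]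
  obtain ⟨l, hl⟩ := invRev_vWord_succ a b k
  rw [h1, FreeGroup.invRev_append, hl]
  simp [FreeGroup.invRev]

theorem Eminus_inv_get {w : FreeGroup S} (h : w⁻¹ ∈ Eminus a b) :
    w.toWord[1]? = some (b, false) := by
  obtain ⟨k, t, hw⟩ := h
  have h1 : w.toWord = FreeGroup.invRev ([t] ++ vWord a b (k + 1)) := by
    rw [List.singleton_append, ← hw, ← FreeGroup.toWord_inv, inv_inv]
  obtain ⟨l, hl⟩ := invRev_vWord_succ a b k
  rw [h1, FreeGroup.invRev_append, hl]
  simp

open Classical in
/-- `e = 1_{E₊} - 1_{E₋}` -/
noncomputable def eCoeff (a b : S) (w : FreeGroup S) : ℝ :=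
  (if w ∈ Eplus a b then 1 else 0) - (if w ∈ Eminus a b then 1 else 0)

/-- The coefficient map `α`. -/
noncomputable def alphaCoeff (a b : S) (w : FreeGroup S) : ℝ := eCoeff a b w - eCoeff a b w⁻¹

theorem alphaCoeff_values (hab : a ≠ b) (w : FreeGroup S) :
    alphaCoeff a b w = -1 ∨ alphaCoeff a b w = 0 ∨ alphaCoeff a b w = 1 := by
  have h1 := @Eplus_get S _ a b w
  have h2 := @Eminus_get S _ a b w
  have h3 := @Eplus_inv_get S _ a b w
  have h4 := @Eminus_inv_get S _ a b w
  unfold alphaCoeff eCoeff
  by_cases c1 : w ∈ Eplus a b <;> by_cases c2 : w ∈ Eminus a b <;>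
    by_cases c3 : w⁻¹ ∈ Eplus a b <;> by_cases c4 : w⁻¹ ∈ Eminus a b <;>
    simp_all [hab.symm]

theorem alphaCoeff_inv (w : FreeGroup S) : alphaCoeff a b w⁻¹ = - alphaCoeff a b w := by
  simp [alphaCoeff]

theorem alphaCoeff_support (hab : a ≠ b) {w : FreeGroup S} (hw : w ∉ nonSelfOverlapping S) :
    alphaCoeff a b w = 0 := by
  have hw' : w⁻¹ ∉ nonSelfOverlapping S := fun h => hw (by simpa using inv_mem_nso h)
  have h1 : w ∉ Eplus a b := fun h => hw (Eplus_subset hab h)
  have h2 : w ∉ Eminus a b := fun h => hw (Eminus_subset hab h)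
  have h3 : w⁻¹ ∉ Eplus a b := fun h => hw' (Eplus_subset hab h)
  have h4 : w⁻¹ ∉ Eminus a b := fun h => hw' (Eminus_subset hab h)
  simp [alphaCoeff, eCoeff, h1, h2, h3, h4]

/-! ### Rearranging the sum over `𝒩⁺` -/

open Classical in
/-- Reorganisation of the sum `∑_{w ∈ 𝒩⁺} α_w F(w)`. -/
theorem sum_half [Fintype S] (hab : a ≠ b) {P : Set (FreeGroup S)} (hP : IsPositiveHalf P)
    (F : FreeGroup S → ℝ) (M : ℕ)
    (hF1 : ∀ w ∈ nonSelfOverlapping S, F w⁻¹ = - F w)
    (hF2 : ∀ w ∈ nonSelfOverlapping S, M < w.toWord.length → F w = 0) :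
    (∑ᶠ w ∈ P, alphaCoeff a b w * F w) =
      ∑ k ∈ Finset.range M,
        ((∑ t ∈ Finset.univ.filter (fun t : S × Bool => t ≠ (a, true)), F (rightExt a b k t)) -
         (∑ t ∈ Finset.univ.filter (fun t : S × Bool => t ≠ (a, false)), F (leftExt a b k t))) := by
  -- the finite set of all relevant words
  have hfin : {w : FreeGroup S | w ∈ nonSelfOverlapping S ∧ w.toWord.length ≤ 2 * M + 4}.Finite :=
    (finite_length_le (2 * M + 4)).subset (fun w hw => hw.2)
  set T : Finset (FreeGroup S) := hfin.toFinset with hT
  have hmemT : ∀ w, w ∈ T ↔ w ∈ nonSelfOverlapping S ∧ w.toWord.length ≤ 2 * M + 4 := by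
    intro w
    simp [hT]
  -- step 1
  have step1 : (∑ᶠ w ∈ P, alphaCoeff a b w * F w) =
      ∑ w ∈ T.filter (fun w => w ∈ P), alphaCoeff a b w * F w := by
    apply finsum_mem_eq_sum_of_inter_support_eq
    ext w
    simp only [Set.mem_inter_iff, Function.mem_support, Finset.coe_filter, Set.mem_ofPred_eq,
      hmemT]
    constructor
    · rintro ⟨h1, h2⟩
      refine ⟨⟨⟨hP.1 h1, ?_⟩, h1⟩, h2⟩
      by_contra hcon
      apply h2
      rw [hF2 w (hP.1 h1) (by omega), mul_zero]
    · rintro ⟨⟨_, h1⟩, h2⟩
      exact ⟨h1, h2⟩
  -- step 2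
  have step2 : ∑ w ∈ T.filter (fun w => w ∈ P), alphaCoeff a b w * F w =
      ∑ w ∈ T, eCoeff a b w * F w := by
    rw [← Finset.sum_filter_add_sum_filter_not T (fun w => w ∈ P)]
    have h1 : ∑ w ∈ T.filter (fun w => ¬ w ∈ P), eCoeff a b w * F w =
        ∑ w ∈ T.filter (fun w => w ∈ P), eCoeff a b w⁻¹ * F w⁻¹ := by
      apply Finset.sum_nbij' (fun w => w⁻¹) (fun w => w⁻¹)
      · intro w hw
        rw [Finset.mem_filter, hmemT] at hw ⊢
        obtain ⟨⟨h1, h2⟩, h3⟩ := hw
        refine ⟨⟨inv_mem_nso h1, ?_⟩, ?_⟩
        · rw [FreeGroup.toWord_inv, FreeGroup.invRev_length]; exact h2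
        · rcases hP.2 w h1 with h | h
          · exact absurd h.1 h3
          · exact h.2
      · intro w hw
        rw [Finset.mem_filter, hmemT] at hw ⊢
        obtain ⟨⟨h1, h2⟩, h3⟩ := hw
        refine ⟨⟨inv_mem_nso h1, ?_⟩, ?_⟩
        · rw [FreeGroup.toWord_inv, FreeGroup.invRev_length]; exact h2
        · rcases hP.2 w h1 with h | h
          · exact h.2
          · exact absurd h3 h.1
      · intro w _; simp
      · intro w _; simp
      · intro w _; simp
    rw [h1, ← Finset.sum_add_distrib]
    apply Finset.sum_congr rfl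
    intro w hw
    rw [Finset.mem_filter, hmemT] at hw
    rw [hF1 w hw.1.1, alphaCoeff]
    ring
  -- step 3
  have step3 : ∑ w ∈ T, eCoeff a b w * F w =
      (∑ w ∈ T, (if w ∈ Eplus a b then 1 else 0) * F w) -
        ∑ w ∈ T, (if w ∈ Eminus a b then 1 else 0) * F w := by
    rw [← Finset.sum_sub_distrib]
    apply Finset.sum_congr rfl
    intro w _
    rw [eCoeff]
    ring
  have step4 : (∑ w ∈ T, (if w ∈ Eplus a b then 1 else 0) * F w) =
      ∑ k ∈ Finset.range M,
        (∑ t ∈ Finset.univ.filter (fun t : S × Bool => t ≠ (a, true)), F (rightExt a b k t)) := by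
    rw [← Finset.sum_product']
    symm
    apply Finset.sum_of_injOn (fun x => rightExt a b x.1 x.2)
    · rintro ⟨k, t⟩ hx ⟨k', t'⟩ hx' h
      simp only [Finset.coe_product, Set.mem_prod, Finset.mem_coe, Finset.mem_filter,
        Finset.mem_univ, true_and] at hx hx'
      have h2 := congrArg FreeGroup.toWord h
      simp only at h2
      rw [toWord_rightExt hab k hx.2, toWord_rightExt hab k' hx'.2] at h2
      have h3 := congrArg List.length h2
      simp only [List.length_append, length_vWord, List.length_singleton] at h3
      have h4 : k = k' := by omega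
      subst h4
      have h5 := List.append_cancel_left h2
      simp at h5
      simp [h5]
    · rintro ⟨k, t⟩ hx
      simp only [Finset.coe_product, Set.mem_prod, Finset.mem_coe, Finset.mem_filter,
        Finset.mem_univ, true_and, Finset.mem_range] at hx
      rw [Finset.mem_coe, hmemT]
      refine ⟨Eplus_subset hab ⟨k, t, toWord_rightExt hab k hx.2⟩, ?_⟩
      rw [toWord_rightExt hab k hx.2]
      simp only [List.length_append, length_vWord, List.length_singleton]
      omega
    · intro w hw hw'
      by_cases hE : w ∈ Eplus a b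
      · rw [if_pos hE, one_mul]
        apply hF2 w (Eplus_subset hab hE)
        obtain ⟨k, t, hkt⟩ := hE
        by_contra hcon
        apply hw'
        have ht : t ≠ (a, true) := by
          rw [← isReduced_right_iff a b hab k, ← hkt]
          exact FreeGroup.isReduced_toWord
        refine ⟨(k, t), ?_, ?_⟩
        · simp only [Finset.coe_product, Set.mem_prod, Finset.mem_coe, Finset.mem_filter,
            Finset.mem_univ, true_and, Finset.mem_range]
          refine ⟨?_, ht⟩
          rw [hkt] at hcon
          simp only [List.length_append, length_vWord, List.length_singleton] at hcon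
          omega
        · apply FreeGroup.toWord_injective
          simp only
          rw [toWord_rightExt hab k ht, hkt]
      · rw [if_neg hE, zero_mul]
    · rintro ⟨k, t⟩ hx
      simp only [Finset.mem_product, Finset.mem_filter,
        Finset.mem_univ, true_and, Finset.mem_range] at hx
      have : rightExt a b k t ∈ Eplus a b := ⟨k, t, toWord_rightExt hab k hx.2⟩
      simp [this]
  have step5 : (∑ w ∈ T, (if w ∈ Eminus a b then 1 else 0) * F w) =
      ∑ k ∈ Finset.range M,
        (∑ t ∈ Finset.univ.filter (fun t : S × Bool => t ≠ (a, false)), F (leftExt a b k t)) := by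
    rw [← Finset.sum_product']
    symm
    apply Finset.sum_of_injOn (fun x => leftExt a b x.1 x.2)
    · rintro ⟨k, t⟩ hx ⟨k', t'⟩ hx' h
      simp only [Finset.coe_product, Set.mem_prod, Finset.mem_coe, Finset.mem_filter,
        Finset.mem_univ, true_and] at hx hx'
      have h2 := congrArg FreeGroup.toWord h
      simp only at h2
      rw [toWord_leftExt hab k hx.2, toWord_leftExt hab k' hx'.2] at h2
      have h3 := congrArg List.length h2
      simp only [List.length_cons, length_vWord] at h3
      have h4 : k = k' := by omega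
      subst h4
      have h5 := (List.cons.inj h2).1
      simp [h5]
    · rintro ⟨k, t⟩ hx
      simp only [Finset.coe_product, Set.mem_prod, Finset.mem_coe, Finset.mem_filter,
        Finset.mem_univ, true_and, Finset.mem_range] at hx
      rw [Finset.mem_coe, hmemT]
      refine ⟨Eminus_subset hab ⟨k, t, toWord_leftExt hab k hx.2⟩, ?_⟩
      rw [toWord_leftExt hab k hx.2]
      simp only [List.length_cons, length_vWord]
      omega
    · intro w hw hw'
      by_cases hE : w ∈ Eminus a b
      · rw [if_pos hE, one_mul]
        apply hF2 w (Eminus_subset hab hE)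
        obtain ⟨k, t, hkt⟩ := hE
        by_contra hcon
        apply hw'
        have ht : t ≠ (a, false) := by
          rw [← isReduced_left_iff a b hab k, ← hkt]
          exact FreeGroup.isReduced_toWord
        refine ⟨(k, t), ?_, ?_⟩
        · simp only [Finset.coe_product, Set.mem_prod, Finset.mem_coe, Finset.mem_filter,
            Finset.mem_univ, true_and, Finset.mem_range]
          refine ⟨?_, ht⟩
          rw [hkt] at hcon
          simp only [List.length_cons, length_vWord] at hcon
          omega
        · apply FreeGroup.toWord_injective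
          simp only
          rw [toWord_leftExt hab k ht, hkt]
      · rw [if_neg hE, zero_mul]
    · rintro ⟨k, t⟩ hx
      simp only [Finset.mem_product, Finset.mem_filter,
        Finset.mem_univ, true_and, Finset.mem_range] at hx
      have : leftExt a b k t ∈ Eminus a b := ⟨k, t, toWord_leftExt hab k hx.2⟩
      simp [this]
  rw [step1, step2, step3, step4, step5, ← Finset.sum_sub_distrib]

/-! ### The telescoping identity -/

theorem cnt_eq_zero_of_not_isReduced {w l : List (S × Bool)} (hw : ¬ FreeGroup.IsReduced w)
    (hl : FreeGroup.IsReduced l) : cnt w l = 0 := by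
  induction l with
  | nil => rfl
  | cons x l ih =>
    have h1 : ¬ w <+: x :: l := by
      rintro ⟨s, hs⟩
      apply hw
      rw [← hs] at hl
      exact List.IsChain.left_of_append hl
    have h2 := ih (List.IsChain.tail hl)
    simp [cnt, h1, h2]

theorem sum_cnt_filter_right [Fintype S] (hab : a ≠ b) (k : ℕ) {l : List (S × Bool)}
    (hl : FreeGroup.IsReduced l) :
    (∑ t ∈ Finset.univ.filter (fun t : S × Bool => t ≠ (a, true)),
      cnt (vWord a b (k + 1) ++ [t]) l) + (if vWord a b (k + 1) <:+ l then 1 else 0) =
    cnt (vWord a b (k + 1)) l := by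
  rw [← cnt_right_ext (vWord a b (k + 1)) (by simp [vWord]) l]
  congr 1
  apply Finset.sum_subset (Finset.filter_subset _ _)
  intro t _ ht
  apply cnt_eq_zero_of_not_isReduced _ hl
  rw [isReduced_right_iff a b hab k]
  simpa using ht

theorem sum_cnt_filter_left [Fintype S] (hab : a ≠ b) (k : ℕ) {l : List (S × Bool)}
    (hl : FreeGroup.IsReduced l) :
    (∑ t ∈ Finset.univ.filter (fun t : S × Bool => t ≠ (a, false)),
      cnt (t :: vWord a b (k + 1)) l) + (if vWord a b (k + 1) <+: l then 1 else 0) =
    cnt (vWord a b (k + 1)) l := by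
  rw [← cnt_left_ext (vWord a b (k + 1)) (by simp [vWord]) l]
  congr 1
  apply Finset.sum_subset (Finset.filter_subset _ _)
  intro t _ ht
  apply cnt_eq_zero_of_not_isReduced _ hl
  rw [isReduced_left_iff a b hab k]
  simpa using ht

omit [DecidableEq S] in
theorem isReduced_invRev_iff {l : List (S × Bool)} :
    FreeGroup.IsReduced (FreeGroup.invRev l) ↔ FreeGroup.IsReduced l := by
  classical
  rw [FreeGroup.isReduced_iff_reduce_eq, FreeGroup.isReduced_iff_reduce_eq,
    FreeGroup.reduce_invRev]
  exact FreeGroup.invRev_injective.eq_iff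

theorem sum_cnt_filter_right_inv [Fintype S] (hab : a ≠ b) (k : ℕ) {l : List (S × Bool)}
    (hl : FreeGroup.IsReduced l) :
    (∑ t ∈ Finset.univ.filter (fun t : S × Bool => t ≠ (a, true)),
      cnt (FreeGroup.invRev (vWord a b (k + 1) ++ [t])) l) +
        (if FreeGroup.invRev (vWord a b (k + 1)) <+: l then 1 else 0) =
    cnt (FreeGroup.invRev (vWord a b (k + 1))) l := by
  rw [← cnt_left_ext (FreeGroup.invRev (vWord a b (k + 1))) (by simp [vWord, FreeGroup.invRev]) l]
  congr 1
  have h1 : ∑ t ∈ Finset.univ.filter (fun t : S × Bool => t ≠ (a, true)),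
      cnt (FreeGroup.invRev (vWord a b (k + 1) ++ [t])) l =
      ∑ t : S × Bool, cnt (FreeGroup.invRev (vWord a b (k + 1) ++ [t])) l := by
    apply Finset.sum_subset (Finset.filter_subset _ _)
    intro t _ ht
    apply cnt_eq_zero_of_not_isReduced _ hl
    rw [isReduced_invRev_iff, isReduced_right_iff a b hab k]
    simpa using ht
  rw [h1]
  apply Finset.sum_nbij' (fun t => (t.1, !t.2)) (fun t => (t.1, !t.2)) <;>
    simp [FreeGroup.invRev]

theorem sum_cnt_filter_left_inv [Fintype S] (hab : a ≠ b) (k : ℕ) {l : List (S × Bool)}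
    (hl : FreeGroup.IsReduced l) :
    (∑ t ∈ Finset.univ.filter (fun t : S × Bool => t ≠ (a, false)),
      cnt (FreeGroup.invRev (t :: vWord a b (k + 1))) l) +
        (if FreeGroup.invRev (vWord a b (k + 1)) <:+ l then 1 else 0) =
    cnt (FreeGroup.invRev (vWord a b (k + 1))) l := by
  rw [← cnt_right_ext (FreeGroup.invRev (vWord a b (k + 1))) (by simp [vWord, FreeGroup.invRev]) l]
  congr 1
  have h1 : ∑ t ∈ Finset.univ.filter (fun t : S × Bool => t ≠ (a, false)),
      cnt (FreeGroup.invRev (t :: vWord a b (k + 1))) l =
      ∑ t : S × Bool, cnt (FreeGroup.invRev (t :: vWord a b (k + 1))) l := by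
    apply Finset.sum_subset (Finset.filter_subset _ _)
    intro t _ ht
    apply cnt_eq_zero_of_not_isReduced _ hl
    rw [isReduced_invRev_iff, isReduced_left_iff a b hab k]
    simpa using ht
  rw [h1]
  apply Finset.sum_nbij' (fun t => (t.1, !t.2)) (fun t => (t.1, !t.2)) <;>
    simp [FreeGroup.invRev]

/-- the `k`-th boundary term -/
def bdry (a b : S) (k : ℕ) (l : List (S × Bool)) : ℝ :=
  (if vWord a b (k + 1) <+: l then 1 else 0) - (if vWord a b (k + 1) <:+ l then 1 else 0)
  + (if FreeGroup.invRev (vWord a b (k + 1)) <+: l then 1 else 0)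
  - (if FreeGroup.invRev (vWord a b (k + 1)) <:+ l then 1 else 0)

theorem abs_bdry_le (k : ℕ) (l : List (S × Bool)) : |bdry a b k l| ≤ 2 := by
  unfold bdry
  split_ifs <;> norm_num

theorem level_identity [Fintype S] (hab : a ≠ b) (k : ℕ) (g : FreeGroup S) :
    (∑ t ∈ Finset.univ.filter (fun t : S × Bool => t ≠ (a, true)), brooks (rightExt a b k t) g) -
      (∑ t ∈ Finset.univ.filter (fun t : S × Bool => t ≠ (a, false)), brooks (leftExt a b k t) g)
    = bdry a b k g.toWord := by
  have hl : FreeGroup.IsReduced g.toWord := FreeGroup.isReduced_toWord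
  have hR : ∀ t ∈ Finset.univ.filter (fun t : S × Bool => t ≠ (a, true)),
      brooks (rightExt a b k t) g = (cnt (vWord a b (k + 1) ++ [t]) g.toWord : ℝ) -
        cnt (FreeGroup.invRev (vWord a b (k + 1) ++ [t])) g.toWord := by
    intro t ht
    have ht' : t ≠ (a, true) := by simpa using ht
    have hmem : rightExt a b k t ∈ nonSelfOverlapping S :=
      Eplus_subset hab ⟨k, t, toWord_rightExt hab k ht'⟩
    rw [brooks, maxDisjoint_eq_cnt hmem, maxDisjoint_eq_cnt (inv_mem_nso hmem),
      FreeGroup.toWord_inv, toWord_rightExt hab k ht']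
  have hL : ∀ t ∈ Finset.univ.filter (fun t : S × Bool => t ≠ (a, false)),
      brooks (leftExt a b k t) g = (cnt (t :: vWord a b (k + 1)) g.toWord : ℝ) -
        cnt (FreeGroup.invRev (t :: vWord a b (k + 1))) g.toWord := by
    intro t ht
    have ht' : t ≠ (a, false) := by simpa using ht
    have hmem : leftExt a b k t ∈ nonSelfOverlapping S :=
      Eminus_subset hab ⟨k, t, toWord_leftExt hab k ht'⟩
    rw [brooks, maxDisjoint_eq_cnt hmem, maxDisjoint_eq_cnt (inv_mem_nso hmem),
      FreeGroup.toWord_inv, toWord_leftExt hab k ht']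
  rw [Finset.sum_congr rfl hR, Finset.sum_congr rfl hL, Finset.sum_sub_distrib,
    Finset.sum_sub_distrib]
  have e1 := sum_cnt_filter_right hab k hl
  have e2 := sum_cnt_filter_left hab k hl
  have e3 := sum_cnt_filter_right_inv hab k hl
  have e4 := sum_cnt_filter_left_inv hab k hl
  have e1' := congrArg (Nat.cast : ℕ → ℝ) e1
  have e2' := congrArg (Nat.cast : ℕ → ℝ) e2
  have e3' := congrArg (Nat.cast : ℕ → ℝ) e3
  have e4' := congrArg (Nat.cast : ℕ → ℝ) e4
  push_cast at e1' e2' e3' e4'
  unfold bdry
  linarith

/-- `φ_α(g)` is the sum of the boundary terms. -/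
theorem phi_eq [Fintype S] (hab : a ≠ b) {P : Set (FreeGroup S)} (hP : IsPositiveHalf P)
    (g : FreeGroup S) :
    phi P (alphaCoeff a b) g = ∑ k ∈ Finset.range g.toWord.length, bdry a b k g.toWord := by
  rw [phi, sum_half hab hP (fun w => brooks w g) g.toWord.length]
  · apply Finset.sum_congr rfl
    intro k _
    exact level_identity hab k g
  · intro w _
    exact brooks_inv w g
  · intro w hw h
    exact brooks_eq_zero hw h

theorem level_homogenization [Fintype S] (hab : a ≠ b) (k : ℕ) (g : FreeGroup S) :
    (∑ t ∈ Finset.univ.filter (fun t : S × Bool => t ≠ (a, true)),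
      homogenization (brooks (rightExt a b k t)) g) -
      (∑ t ∈ Finset.univ.filter (fun t : S × Bool => t ≠ (a, false)),
        homogenization (brooks (leftExt a b k t)) g) = 0 := by
  have h1 : Tendsto (fun n : ℕ =>
      (∑ t ∈ Finset.univ.filter (fun t : S × Bool => t ≠ (a, true)),
        brooks (rightExt a b k t) (g ^ n) / n) -
      (∑ t ∈ Finset.univ.filter (fun t : S × Bool => t ≠ (a, false)),
        brooks (leftExt a b k t) (g ^ n) / n)) atTop
      (𝓝 ((∑ t ∈ Finset.univ.filter (fun t : S × Bool => t ≠ (a, true)),
      homogenization (brooks (rightExt a b k t)) g) -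
      (∑ t ∈ Finset.univ.filter (fun t : S × Bool => t ≠ (a, false)),
        homogenization (brooks (leftExt a b k t)) g))) := by
    apply Tendsto.sub
    · apply tendsto_finsetSum
      intro t ht
      have ht' : t ≠ (a, true) := by simpa using ht
      exact tendsto_homogenization (Eplus_subset hab ⟨k, t, toWord_rightExt hab k ht'⟩) g
    · apply tendsto_finsetSum
      intro t ht
      have ht' : t ≠ (a, false) := by simpa using ht
      exact tendsto_homogenization (Eminus_subset hab ⟨k, t, toWord_leftExt hab k ht'⟩) g
  have h2 : Tendsto (fun n : ℕ => bdry a b k (g ^ n).toWord / n) atTop (𝓝 0) := by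
    apply squeeze_zero_norm (a := fun n : ℕ => (2 : ℝ) / n)
    · intro n
      rw [norm_div, Real.norm_eq_abs]
      simp only [RCLike.norm_natCast]
      exact div_le_div_of_nonneg_right (abs_bdry_le k _) (by positivity)
    · exact tendsto_const_div_atTop_nhds_zero_nat _
  refine tendsto_nhds_unique h1 (h2.congr ?_)
  intro n
  rw [← level_identity hab k (g ^ n), sub_div, Finset.sum_div, Finset.sum_div]

theorem phiTilde_eq [Fintype S] (hab : a ≠ b) {P : Set (FreeGroup S)} (hP : IsPositiveHalf P)
    (g : FreeGroup S) : phiTilde P (alphaCoeff a b) g = 0 := by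
  rw [phiTilde, sum_half hab hP (fun w => homogenization (brooks w) g) g.toWord.length]
  · apply Finset.sum_eq_zero
    intro k _
    exact level_homogenization hab k g
  · intro w hw
    exact homogenization_inv hw g
  · intro w hw h
    exact homogenization_eq_zero hw h

/-! ### `φ_α` is not a quasimorphism -/

theorem bdry_eq_zero_of_head {k : ℕ} {l : List (S × Bool)} (h1 : l.head? ≠ some (a, true))
    (h2 : l.getLast? ≠ some (a, false)) : bdry a b k l = 0 := by
  have hlast : ∀ s : List (S × Bool), (s ++ vWord a b (k + 1)).getLast? = some (a, false) := by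
    intro s
    rw [vWord_succ', ← List.append_assoc]
    simp
  obtain ⟨l', hl'⟩ := invRev_vWord_succ a b k
  have c1 : ¬ vWord a b (k + 1) <+: l := by
    rintro ⟨s, rfl⟩
    apply h1
    simp [vWord]
  have c2 : ¬ vWord a b (k + 1) <:+ l := by
    rintro ⟨s, rfl⟩
    exact h2 (hlast s)
  have c3 : ¬ FreeGroup.invRev (vWord a b (k + 1)) <+: l := by
    rintro ⟨s, rfl⟩
    apply h1
    rw [hl']
    simp
  have c4 : ¬ FreeGroup.invRev (vWord a b (k + 1)) <:+ l := by
    rintro ⟨s, rfl⟩
    apply h2
    have : FreeGroup.invRev (vWord a b (k + 1))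
        = FreeGroup.invRev (tailWord a b (k + 1)) ++ [(a, false)] := by
      rw [vWord, ← List.singleton_append, FreeGroup.invRev_append]
      simp [FreeGroup.invRev]
    rw [this, ← List.append_assoc]
    simp
  simp [bdry, c1, c2, c3, c4]

omit [DecidableEq S] in
theorem vWord_prefix {j k : ℕ} (h : j ≤ k) : vWord a b j <+: vWord a b k := by
  induction k with
  | zero =>
    have : j = 0 := by omega
    subst this
    exact List.prefix_refl _
  | succ k ih =>
    rcases Nat.lt_or_ge k j with h1 | h1
    · have : j = k + 1 := by omega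
      subst this
      exact List.prefix_refl _
    · refine (ih h1).trans ?_
      rw [vWord_succ']
      exact List.prefix_append _ _

theorem bdry_nested {j k : ℕ} : bdry a b j (vWord a b (k + 1) ++ [(b, true)]) =
    if j ≤ k then 1 else 0 := by
  have hlast : ∀ (m : ℕ) (s : List (S × Bool)),
      (s ++ vWord a b (m + 1)).getLast? = some (a, false) := by
    intro m s
    rw [vWord_succ', ← List.append_assoc]
    simp
  obtain ⟨l', hl'⟩ := invRev_vWord_succ a b j
  have c2 : ¬ vWord a b (j + 1) <:+ vWord a b (k + 1) ++ [(b, true)] := by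
    rintro ⟨s, hs⟩
    have := hlast j s
    rw [hs] at this
    simp at this
  have c3 : ¬ FreeGroup.invRev (vWord a b (j + 1)) <+: vWord a b (k + 1) ++ [(b, true)] := by
    rw [hl', vWord, tailWord_succ]
    simp
  have c4 : ¬ FreeGroup.invRev (vWord a b (j + 1)) <:+ vWord a b (k + 1) ++ [(b, true)] := by
    rintro ⟨s, hs⟩
    have h5 : FreeGroup.invRev (vWord a b (j + 1))
        = FreeGroup.invRev (tailWord a b (j + 1)) ++ [(a, false)] := by
      rw [vWord, ← List.singleton_append, FreeGroup.invRev_append]
      simp [FreeGroup.invRev]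
    rw [h5, ← List.append_assoc] at hs
    have := congrArg List.getLast? hs
    simp at this
  by_cases hjk : j ≤ k
  · have c1 : vWord a b (j + 1) <+: vWord a b (k + 1) ++ [(b, true)] :=
      (vWord_prefix (by omega)).trans (List.prefix_append _ _)
    simp [bdry, c1, c2, c3, c4, hjk]
  · have c1 : ¬ vWord a b (j + 1) <+: vWord a b (k + 1) ++ [(b, true)] := by
      intro h
      have := h.length_le
      simp only [List.length_append, length_vWord, List.length_singleton] at this
      omega
    simp [bdry, c1, c2, c3, c4, hjk]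

theorem not_isQuasimorphism_phi [Fintype S] (hab : a ≠ b) {P : Set (FreeGroup S)}
    (hP : IsPositiveHalf P) : ¬ IsQuasimorphism (phi P (alphaCoeff a b)) := by
  rintro ⟨D, hD⟩
  obtain ⟨K, hK⟩ := exists_nat_gt D
  -- `x = b⁻¹`, `y = b v_{K+1} b`
  set x : FreeGroup S := FreeGroup.mk [(b, false)] with hx
  set y : FreeGroup S := FreeGroup.mk ((b, true) :: (vWord a b (K + 1) ++ [(b, true)])) with hy
  have hba : ((b, true) : S × Bool) ≠ (a, true) := by simp [hab.symm]
  have hrr : FreeGroup.IsReduced (vWord a b (K + 1) ++ [(b, true)]) :=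
    (isReduced_right_iff a b hab K).2 hba
  have hyw : y.toWord = (b, true) :: (vWord a b (K + 1) ++ [(b, true)]) := by
    rw [hy, FreeGroup.toWord_mk, FreeGroup.IsReduced.reduce_eq]
    rw [vWord, List.cons_append] at hrr ⊢
    rw [FreeGroup.isReduced_cons_cons]
    exact ⟨by simp, hrr⟩
  have hxw : x.toWord = [(b, false)] := by
    rw [hx, FreeGroup.toWord_mk, FreeGroup.IsReduced.reduce_eq]
    exact FreeGroup.IsReduced.singleton
  have hxyw : (x * y).toWord = vWord a b (K + 1) ++ [(b, true)] := by
    have h1 : x * y = FreeGroup.mk (vWord a b (K + 1) ++ [(b, true)]) := by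
      rw [hx, hy, FreeGroup.mul_mk]
      apply Quot.sound
      exact FreeGroup.Red.Step.cons_not
    rw [h1, FreeGroup.toWord_mk, FreeGroup.IsReduced.reduce_eq hrr]
  have h1 : phi P (alphaCoeff a b) x = 0 := by
    rw [phi_eq hab hP, hxw]
    apply Finset.sum_eq_zero
    intro k _
    apply bdry_eq_zero_of_head
    · simp
    · simp [hab.symm]
  have h2 : phi P (alphaCoeff a b) y = 0 := by
    rw [phi_eq hab hP, hyw]
    apply Finset.sum_eq_zero
    intro k _
    apply bdry_eq_zero_of_head
    · simp [hab.symm]
    · have h5 : ((b, true) :: (vWord a b (K + 1) ++ [(b, true)])).getLast? = some (b, true) := by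
        rw [← List.cons_append, List.getLast?_concat]
      rw [h5]
      simp
  have h3 : phi P (alphaCoeff a b) (x * y) = K + 1 := by
    rw [phi_eq hab hP, hxyw]
    simp only [bdry_nested]
    rw [← Finset.sum_filter]
    have : (Finset.range (vWord a b (K + 1) ++ [(b, true)]).length).filter (fun j => j ≤ K)
        = Finset.range (K + 1) := by
      ext j
      simp only [List.length_append, length_vWord, List.length_singleton, Finset.mem_filter,
        Finset.mem_range]
      omega
    rw [this]
    simp
  have h4 := hD x y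
  rw [h1, h2, h3] at h4
  have : |(0 : ℝ) + 0 - (K + 1)| = K + 1 := by
    rw [zero_add, zero_sub, abs_neg, abs_of_nonneg (by positivity)]
  rw [this] at h4
  linarith

end Words

/-- **Main theorem** (disproof of Q1 of MP_c1a8be_al). Let `F` be the free group on a finite set `S`
with at least two elements and let `P = 𝒩⁺` be any choice of representatives. The limits defining
`\bar h_w`, `w ∈ 𝒩`, exist, both sums have only finitely many nonzero terms at each `g`, and there
is an alternating coefficient map `α`, supported on `𝒩` and with values in `{-1, 0, 1}`, such that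
`φ̃_α = 0` is a quasimorphism but `φ_α` is not a quasimorphism. -/
theorem main_result {S : Type u} [Finite S] [Nontrivial S] [DecidableEq S]
    (P : Set (FreeGroup S)) (hP : IsPositiveHalf P) :
    ((∀ w ∈ nonSelfOverlapping S, ∀ g : FreeGroup S,
        Tendsto (fun n : ℕ => brooks w (g ^ n) / n) atTop (𝓝 (homogenization (brooks w) g))) ∧
      (∀ g : FreeGroup S, {w ∈ P | brooks w g ≠ 0}.Finite) ∧
      (∀ g : FreeGroup S, {w ∈ P | homogenization (brooks w) g ≠ 0}.Finite)) ∧
    ∃ α : FreeGroup S → ℝ,
      (∀ w, α w = -1 ∨ α w = 0 ∨ α w = 1) ∧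
      (∀ w, α w⁻¹ = - α w) ∧
      (∀ w, w ∉ nonSelfOverlapping S → α w = 0) ∧
      (∀ g, phiTilde P α g = 0) ∧
      IsQuasimorphism (phiTilde P α) ∧
      ¬ IsQuasimorphism (phi P α) := by
  have : Fintype S := Fintype.ofFinite S
  obtain ⟨a, b, hab⟩ := exists_pair_ne S
  refine ⟨⟨fun w hw g => tendsto_homogenization hw g, fun g => ?_, fun g => ?_⟩,
    alphaCoeff a b, alphaCoeff_values hab, alphaCoeff_inv, fun w hw => alphaCoeff_support hab hw,
    phiTilde_eq hab hP, ⟨0, ?_⟩, not_isQuasimorphism_phi hab hP⟩
  · apply (finite_length_le g.toWord.length).subset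
    rintro w ⟨h1, h2⟩
    by_contra hcon
    simp only [Set.mem_ofPred_eq, not_le] at hcon
    exact h2 (brooks_eq_zero (hP.1 h1) hcon)
  · apply (finite_length_le g.toWord.length).subset
    rintro w ⟨h1, h2⟩
    by_contra hcon
    simp only [Set.mem_ofPred_eq, not_le] at hcon
    exact h2 (homogenization_eq_zero (hP.1 h1) hcon)
  · intro g h
    rw [phiTilde_eq hab hP, phiTilde_eq hab hP, phiTilde_eq hab hP]
    simp

end Pool.Agent.Helper10.Brooks
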